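import Pool.Agent.H14R3.Aug.Stmts

set_option autoImplicit false

/-!
Task GradPot of project AUG (helper498): every square summable edge function is the gradient of
the potential of a square summable function.
-/

open scoped ENNReal InnerProductSpace

namespace Pool.Agent.H14R3.Aug

noncomputable section

/-- the density read off from the first letter -/
def gpAux {n : ℕ} (p : Fin n × G n → ℂ) (g : G n) : List (Fin n × Bool) → ℂ
  | [] => 0
  | (l, true) :: w => p (l, FreeGroup.mk w)
  | (l, false) :: _ => - p (l, g)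

/-- the density -/
def gp {n : ℕ} (p : Fin n × G n → ℂ) (g : G n) : ℂ := gpAux p g g.toWord

theorem gp_of_mul_word {n : ℕ} (l : Fin n) (g : G n) (h : ∀ w, g.toWord ≠ (l, false) :: w) :
    (FreeGroup.of l * g).toWord = (l, true) :: g.toWord := by
  rw [FreeGroup.toWord_mul, FreeGroup.toWord_of, List.singleton_append, FreeGroup.reduce.cons,
    FreeGroup.reduce_toWord]
  cases hg : g.toWord with
  | nil => rfl
  | cons hd tl =>
    simp only
    rw [if_neg]
    rintro ⟨h1, h2⟩
    apply h tl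
    rw [hg]
    congr 1
    obtain ⟨a, b⟩ := hd
    simp only at h1 h2
    subst h1
    cases b
    · rfl
    · simp at h2

theorem gp_cons_false {n : ℕ} (l : Fin n) (g : G n) (w : List (Fin n × Bool))
    (h : g.toWord = (l, false) :: w) : FreeGroup.of l * g = FreeGroup.mk w := by
  have h1 : g = (FreeGroup.of l)⁻¹ * FreeGroup.mk w := by
    rw [← FreeGroup.mk_toWord (x := g), h]
    rfl
  rw [h1, mul_inv_cancel_left]

theorem gp_cons_true {n : ℕ} (l : Fin n) (g : G n) (w : List (Fin n × Bool))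
    (h : g.toWord = (l, true) :: w) : FreeGroup.mk w = (FreeGroup.of l)⁻¹ * g := by
  have h1 : g = FreeGroup.of l * FreeGroup.mk w := by
    rw [← FreeGroup.mk_toWord (x := g), h]
    rfl
  rw [h1, inv_mul_cancel_left]

theorem gp_tail_word {n : ℕ} (g : G n) (t : Fin n × Bool) (w : List (Fin n × Bool))
    (h : g.toWord = t :: w) : (FreeGroup.mk w).toWord = w := by
  rw [FreeGroup.toWord_mk]
  apply FreeGroup.IsReduced.reduce_eq
  have h1 : FreeGroup.IsReduced g.toWord := FreeGroup.isReduced_toWord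
  rw [h] at h1
  exact List.IsChain.tail h1

theorem Pot_cons {n : ℕ} (d : G n → ℂ) (g : G n) (t : Fin n × Bool) (w : List (Fin n × Bool))
    (h : g.toWord = t :: w) : Pot d g = d g + Pot d (FreeGroup.mk w) := by
  unfold Pot
  rw [gp_tail_word g t w h, h, List.tails_cons, List.map_cons, List.sum_cons, ← h,
    FreeGroup.mk_toWord]

theorem gp_bound {n : ℕ} (p : Fin n × G n → ℂ) (g : G n) :
    ‖gp p g‖ ^ 2 ≤ ∑ l : Fin n, (‖p (l, (FreeGroup.of l)⁻¹ * g)‖ ^ 2 + ‖p (l, g)‖ ^ 2) := by
  have hpos : ∀ l ∈ (Finset.univ : Finset (Fin n)),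
      0 ≤ ‖p (l, (FreeGroup.of l)⁻¹ * g)‖ ^ 2 + ‖p (l, g)‖ ^ 2 := fun l _ => by positivity
  unfold gp
  cases hg : g.toWord with
  | nil =>
    simp only [gpAux, norm_zero]
    rw [zero_pow two_ne_zero]
    exact Finset.sum_nonneg hpos
  | cons hd tl =>
    obtain ⟨l, b⟩ := hd
    refine le_trans ?_ (Finset.single_le_sum hpos (Finset.mem_univ l))
    cases b
    · simp only [gpAux, norm_neg]
      have : 0 ≤ ‖p (l, (FreeGroup.of l)⁻¹ * g)‖ ^ 2 := by positivity
      linarith
    · simp only [gpAux]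
      rw [gp_cons_true l g tl hg]
      have : 0 ≤ ‖p (l, g)‖ ^ 2 := by positivity
      linarith

theorem gp_memlp {n : ℕ} (p : H (Fin n × G n)) :
    Memℓp (fun g : G n => gp (p : Fin n × G n → ℂ) g) 2 := by
  have h2 : (0 : ℝ) < (2 : ℝ≥0∞).toReal := by norm_num
  have hp : Summable fun i : Fin n × G n => ‖(p : Fin n × G n → ℂ) i‖ ^ (2 : ℝ≥0∞).toReal :=
    (memℓp_gen_iff h2).1 (lp.memℓp p)
  have hp' : Summable fun i : Fin n × G n => ‖(p : Fin n × G n → ℂ) i‖ ^ 2 := by
    refine hp.congr fun i => ?_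
    rw [ENNReal.toReal_ofNat, Real.rpow_ofNat]
  rw [memℓp_gen_iff h2]
  have hs : Summable fun g : G n => ∑ l : Fin n,
      (‖(p : Fin n × G n → ℂ) (l, (FreeGroup.of l)⁻¹ * g)‖ ^ 2 +
        ‖(p : Fin n × G n → ℂ) (l, g)‖ ^ 2) := by
    refine summable_sum fun l _ => Summable.add ?_ ?_
    · refine hp'.comp_injective (i := fun g : G n => (l, (FreeGroup.of l)⁻¹ * g)) ?_
      intro a b hab
      simpa using hab
    · refine hp'.comp_injective (i := fun g : G n => (l, g)) ?_
      intro a b hab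
      simpa using hab
  refine Summable.of_nonneg_of_le (fun g => by positivity) (fun g => ?_) hs
  rw [ENNReal.toReal_ofNat, Real.rpow_ofNat]
  exact gp_bound _ g

theorem gp_grad {n : ℕ} (p : Fin n × G n → ℂ) (l : Fin n) (g : G n) :
    Pot (gp p) (FreeGroup.of l * g) - Pot (gp p) g = p (l, g) := by
  by_cases h : ∀ w, g.toWord ≠ (l, false) :: w
  · have h1 := gp_of_mul_word l g h
    rw [Pot_cons (gp p) _ _ _ h1, FreeGroup.mk_toWord, add_sub_cancel_right]
    unfold gp
    rw [h1]
    simp only [gpAux, FreeGroup.mk_toWord]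
  · push Not at h
    obtain ⟨w, hw⟩ := h
    rw [gp_cons_false l g w hw, Pot_cons (gp p) g _ _ hw]
    have h2 : gp p g = - p (l, g) := by
      unfold gp
      rw [hw]
      rfl
    rw [h2]
    ring

/-- GradPot -/
theorem GradPot_proof : GradPot := by
  intro n p hp
  obtain ⟨d, hd⟩ : ∃ d : H (G n), ∀ g, (d : G n → ℂ) g = gp (p : Fin n × G n → ℂ) g :=
    ⟨⟨_, gp_memlp p⟩, fun _ => rfl⟩
  have hd' : (d : G n → ℂ) = gp (p : Fin n × G n → ℂ) := funext hd
  refine ⟨d, ?_, ?_, ?_⟩
  · intro h0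
    apply hp
    ext ⟨l, g⟩
    have h1 := gp_grad (p : Fin n × G n → ℂ) l g
    rw [← hd', h0] at h1
    rw [lp.coeFn_zero] at h1 ⊢
    rw [Pot_zero, Pot_zero, sub_zero] at h1
    exact h1.symm
  · rw [hd]
    unfold gp
    rw [FreeGroup.toWord_one]
    rfl
  · intro l g
    rw [hd']
    exact gp_grad _ l g

end

end Pool.Agent.H14R3.Aug
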